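import Pool.Agent.H20.ER3.Lib

/-!
# MP_816b90_co, Operation C: rows PS, PX, PY (paths of a prism)
-/

set_option autoImplicit false

open Pool.Agent.H48.ER Pool.Agent.H52.ER2 Pool.Agent.H66.ER2 Pool.Agent.H20.ER3

namespace Pool.Agent.H21.ER3

theorem pf_PS : U_PS := by
  intro W M n g i k l h hkl hl
  refine ⟨fun x => g i (k + x), by simp, ?_, ?_, ?_, ?_⟩
  · show g i (k + (l - k)) = g i l
    congr 1; omega
  · intro a b ha hb e
    have := (h.inj i i (k + a) (k + b) (by omega) (by omega) e).2
    omega
  · intro a b ha hb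
    show M.Adj (g i (k + a)) (g i (k + b)) ↔ _
    rw [h.adj i i (k + a) (k + b) (by omega) (by omega)]
    constructor
    · rintro (⟨_, h1⟩ | ⟨h1, _⟩)
      · omega
      · exact absurd rfl h1
    · intro h1
      exact Or.inl ⟨rfl, by omega⟩
  · ext v; constructor
    · rintro ⟨x, h1, h2, rfl⟩
      exact ⟨x - k, by omega, by show g i (k + (x - k)) = g i x; congr 1; omega⟩
    · rintro ⟨x, h1, rfl⟩
      exact ⟨k + x, by omega, by omega, rfl⟩

theorem pf_PX : U_PX := by
  intro W M n g i j k l h hij hk hl hne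
  let f : ℕ → W := fun x => if x ≤ k then g i (k - x) else g j (x - k - 1)
  have f1 : ∀ x, x ≤ k → f x = g i (k - x) := fun x hx => by simp [f, hx]
  have f2 : ∀ x, ¬ x ≤ k → f x = g j (x - k - 1) := fun x hx => by simp [f, hx]
  refine ⟨f, ?_, ?_, ?_, ?_, ?_⟩
  · rw [f1 0 (Nat.zero_le _)]; simp
  · rw [f2 _ (by omega)]
    congr 1; omega
  · intro a b ha hb e
    by_cases h1 : a ≤ k <;> by_cases h2 : b ≤ k
    · rw [f1 a h1, f1 b h2] at e
      have := (h.inj i i _ _ (by omega) (by omega) e).2
      omega
    · rw [f1 a h1, f2 b h2] at e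
      exact absurd (h.inj i j _ _ (by omega) (by omega) e).1 hij
    · rw [f2 a h1, f1 b h2] at e
      exact absurd (h.inj j i _ _ (by omega) (by omega) e).1 hij.symm
    · rw [f2 a h1, f2 b h2] at e
      have := (h.inj j j _ _ (by omega) (by omega) e).2
      omega
  · intro a b ha hb
    by_cases h1 : a ≤ k <;> by_cases h2 : b ≤ k
    · rw [f1 a h1, f1 b h2, h.adj i i _ _ (by omega) (by omega)]
      constructor
      · rintro (⟨_, h3⟩ | ⟨h3, _⟩)
        · omega
        · exact absurd rfl h3
      · intro h3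
        exact Or.inl ⟨rfl, by omega⟩
    · rw [f1 a h1, f2 b h2, h.adj i j _ _ (by omega) (by omega)]
      constructor
      · rintro (⟨h3, _⟩ | ⟨_, h3 | h3⟩)
        · exact absurd h3 hij
        · omega
        · exfalso
          apply hne
          constructor <;> omega
      · intro h3
        exact Or.inr ⟨hij, Or.inl (by omega)⟩
    · rw [f2 a h1, f1 b h2, h.adj j i _ _ (by omega) (by omega)]
      constructor
      · rintro (⟨h3, _⟩ | ⟨_, h3 | h3⟩)
        · exact absurd h3 hij.symm
        · omega
        · exfalso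
          apply hne
          constructor <;> omega
      · intro h3
        exact Or.inr ⟨hij.symm, Or.inl (by omega)⟩
    · rw [f2 a h1, f2 b h2, h.adj j j _ _ (by omega) (by omega)]
      constructor
      · rintro (⟨_, h3⟩ | ⟨h3, _⟩)
        · omega
        · exact absurd rfl h3
      · intro h3
        exact Or.inl ⟨rfl, by omega⟩
  · ext v; constructor
    · rintro (⟨x, h1, h2, rfl⟩ | ⟨x, h1, h2, rfl⟩)
      · refine ⟨k - x, by omega, ?_⟩
        rw [f1 _ (by omega)]
        congr 1; omega
      · refine ⟨k + 1 + x, by omega, ?_⟩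
        rw [f2 _ (by omega)]
        congr 1; omega
    · rintro ⟨x, h1, rfl⟩
      by_cases h2 : x ≤ k
      · left
        rw [f1 x h2]
        exact mem_seg (Nat.zero_le _) (by omega)
      · right
        rw [f2 x h2]
        exact mem_seg (Nat.zero_le _) (by omega)

theorem pf_PY (hPX : U_PX) (hPP : U_PP) : U_PY := by
  intro W M n g i j k l h hij hk hl hne
  obtain ⟨_, h2, _⟩ := hPP W M n g h
  have h3 := hPX W M n _ i j (n i - k) (n j - l) h2 hij (by omega) (by omega) (by omega)
  have e1 : n i - (n i - k) = k := by omega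
  have e2 : n j - (n j - l) = l := by omega
  have s : ∀ (a : Fin 3) (m : ℕ), m ≤ n a →
      seg (fun x => g a (n a - x)) 0 (n a - m) = seg (g a) m (n a) := by
    intro a m hm
    ext v; constructor
    · rintro ⟨x, _, hx, rfl⟩
      exact ⟨n a - x, by omega, by omega, rfl⟩
    · rintro ⟨x, hx1, hx2, rfl⟩
      exact ⟨n a - x, by omega, by omega, by show g a (n a - (n a - x)) = g a x; congr 1; omega⟩
  have h4 : IP M (n i - k + 1 + (n j - l)) (g i (n i - (n i - k))) (g j (n j - (n j - l)))
      (seg (fun x => g i (n i - x)) 0 (n i - k) ∪ seg (fun x => g j (n j - x)) 0 (n j - l)) := h3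
  rw [e1, e2, s i k hk, s j l hl] at h4
  exact h4

end Pool.Agent.H21.ER3
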